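import Mathlib
import Pool.Prelude.Def_F_c31e40fa
import Pool.Agent.H713R2.AR.PR
import Pool.Agent.H713R2.AR.AF5
import Pool.Agent.H713R2.Ident

/-!
The area formula for the antiderivatives of the polynomials of the critical orbit: the Laurent
coefficients far from the index `2 ^ n + 1` carry a small part of the area sum.
-/

set_option autoImplicit false

open Complex Topology Filter Metric MeasureTheory Set N62a1eb23

namespace Pool.Agent.T6.H38.LC

open Pool.Agent.H713R2 Pool.Agent.H712R2 Pool.Agent.H713R2.AR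

/-- Taylor coefficients of the Euler operator. -/
theorem tc_euler {F : ℂ → ℂ} {R : ℝ} (hR : 0 < R) (hF : DifferentiableOn ℂ F (ball 0 R)) (c : ℂ)
    (k : ℕ) : tc (fun x => x * deriv F x - c * F x) k = ((k : ℂ) - c) * tc F k := by
  have hL : DifferentiableOn ℂ (fun x => x * deriv F x - c * F x) (ball 0 R) :=
    (differentiableOn_id.mul (hF.deriv isOpen_ball)).sub (hF.const_mul _)
  have h1 := tc_unique (a := fun k => ((k : ℂ) - c) * tc F k)
    (F := fun x => x * deriv F x - c * F x) hR hL ?_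
  · rw [← h1]
  · filter_upwards [ball_mem_nhds (0 : ℂ) hR] with x hx
    have h2 := hasSum_tc hF hx
    have h3 := hasSum_tc (hF.deriv isOpen_ball) hx
    have h4 : HasSum (fun k : ℕ => (k : ℂ) * tc F k * x ^ k) (x * deriv F x) := by
      have h5 := h3.mul_left x
      rw [← hasSum_nat_add_iff' 1]
      simp only [Finset.range_one, Finset.sum_singleton, Nat.cast_zero, zero_mul, sub_zero]
      have h6 : (fun k : ℕ => ((k + 1 : ℕ) : ℂ) * tc F (k + 1) * x ^ (k + 1)) =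
          fun k => x * (tc (deriv F) k * x ^ k) := by
        funext k
        rw [tc_deriv, pow_succ]
        push_cast
        ring
      rw [h6]
      exact h5
    have h5 := h4.sub (h2.mul_left c)
    have h7 : (fun k : ℕ => ((k : ℂ) - c) * tc F k * x ^ k) =
        fun k : ℕ => (k : ℂ) * tc F k * x ^ k - c * (tc F k * x ^ k) := by
      funext k; ring
    rw [h7]
    exact h5

/-- Taylor coefficients depend only on the values off the origin. -/
theorem tc_congr {F G : ℂ → ℂ} (hF : DifferentiableOn ℂ F (ball 0 1))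
    (hG : DifferentiableOn ℂ G (ball 0 1))
    (h : ∀ x ∈ ball (0 : ℂ) 1, x ≠ 0 → F x = G x) (k : ℕ) : tc F k = tc G k := by
  have h1 := circleIntegral_tc (r := 1 / 2) (by norm_num) (by norm_num) hF k
  have h2 := circleIntegral_tc (r := 1 / 2) (by norm_num) (by norm_num) hG k
  have h3 : ∮ z in C(0, 1 / 2), F z / z ^ (k + 1) = ∮ z in C(0, 1 / 2), G z / z ^ (k + 1) := by
    apply circleIntegral.integral_congr (by norm_num)
    intro z hz
    have hz0 : z ≠ 0 := by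
      rintro rfl
      rw [mem_sphere_zero_iff_norm, norm_zero] at hz
      norm_num at hz
    have hz1 : z ∈ ball (0 : ℂ) 1 := by
      rw [mem_sphere_zero_iff_norm] at hz
      rw [mem_ball_zero_iff, hz]; norm_num
    simp only
    rw [h z hz1 hz0]
  rw [h1, h2] at h3
  exact mul_left_cancel₀ Complex.two_pi_I_ne_zero h3

/-- `x ^ D R (x⁻¹ β x)`, as a function on the disc. -/
noncomputable def HH (β : ℂ → ℂ) (D : ℕ) (R : Polynomial ℂ) (x : ℂ) : ℂ :=
  ∑ j ∈ Finset.range (D + 1), R.coeff j * x ^ (D - j) * (β x) ^ j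

theorem HH_diff {β : ℂ → ℂ} {s : Set ℂ} (hβ : DifferentiableOn ℂ β s) (D : ℕ)
    (R : Polynomial ℂ) : DifferentiableOn ℂ (HH β D R) s := by
  unfold HH
  fun_prop

theorem HH_eq {β : ℂ → ℂ} {D : ℕ} {R : Polynomial ℂ} (hR : R.natDegree ≤ D) {x : ℂ} (hx : x ≠ 0) :
    HH β D R x = x ^ D * R.eval (x⁻¹ * β x) := by
  rw [Polynomial.eval_eq_sum_range' (Nat.lt_succ_of_le hR), Finset.mul_sum]
  unfold HH
  apply Finset.sum_congr rfl
  intro j hj
  have hj' : j ≤ D := Nat.lt_succ_iff.mp (Finset.mem_range.mp hj)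
  have h1 : x ^ D = x ^ (D - j) * x ^ j := by rw [← pow_add, Nat.sub_add_cancel hj']
  rw [h1, mul_pow, inv_pow]
  field_simp

theorem key_identity {β : ℂ → ℂ} (hβ : IsBeta 2 β) {n : ℕ} {R : Polynomial ℂ}
    (hR : R.derivative = PP 2 (n + 1)) (hRd : R.natDegree ≤ 2 ^ n + 1) {x : ℂ}
    (hx : x ∈ ball (0 : ℂ) 1) (hx0 : x ≠ 0) :
    x * deriv (HH β (2 ^ n + 1) R) x - ((2 ^ n + 1 : ℕ) : ℂ) * HH β (2 ^ n + 1) R x =
      BB 2 β n x * (x * deriv β x - 1 * β x) := by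
  have hβx : HasDerivAt β (deriv β x) x :=
    (hβ.diff.differentiableAt (isOpen_ball.mem_nhds hx)).hasDerivAt
  have h1 : HasDerivAt (fun z => z⁻¹ * β z) (-(x ^ 2)⁻¹ * β x + x⁻¹ * deriv β x) x :=
    (hasDerivAt_inv hx0).mul hβx
  have h2 : HasDerivAt (fun c => R.eval c) (R.derivative.eval (x⁻¹ * β x)) (x⁻¹ * β x) :=
    R.hasDerivAt _
  have h3 : HasDerivAt (fun z => R.eval (z⁻¹ * β z))
      (R.derivative.eval (x⁻¹ * β x) * (-(x ^ 2)⁻¹ * β x + x⁻¹ * deriv β x)) x :=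
    h2.comp (h := fun z => z⁻¹ * β z) (h₂ := fun c => R.eval c) x h1
  have h4 : HasDerivAt (fun z : ℂ => z ^ (2 ^ n + 1))
      (((2 ^ n + 1 : ℕ) : ℂ) * x ^ (2 ^ n)) x := by
    have := hasDerivAt_pow (2 ^ n + 1) x
    simpa using this
  have h5 := h4.mul h3
  have h6 : HH β (2 ^ n + 1) R =ᶠ[𝓝 x] fun z => z ^ (2 ^ n + 1) * R.eval (z⁻¹ * β z) := by
    filter_upwards [isOpen_ne.mem_nhds hx0] with z hz using HH_eq hRd hz
  have h7 : deriv (HH β (2 ^ n + 1) R) x = _ := (h5.congr_of_eventuallyEq h6).deriv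
  rw [h7, HH_eq hRd hx0, BB_eq le_rfl β n x hx0, hR, eval_PP]
  generalize P 2 (n + 1) (x⁻¹ * β x) = p
  generalize R.eval (x⁻¹ * β x) = e
  generalize deriv β x = b'
  generalize β x = b
  generalize ((2 ^ n + 1 : ℕ) : ℂ) = d
  rw [pow_succ x (2 ^ n)]
  generalize x ^ (2 ^ n) = y
  field_simp
  ring

theorem coef_rel {β : ℂ → ℂ} (hβ : IsBeta 2 β) {n : ℕ} {R : Polynomial ℂ}
    (hR : R.derivative = PP 2 (n + 1)) (hRd : R.natDegree ≤ 2 ^ n + 1) {k : ℕ}
    (hk : k ≤ 2 * 2 ^ n - 2) :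
    ((2 : ℂ) ^ n + 1 - k) * tc (HH β (2 ^ n + 1) R) k = (1 - (k : ℂ)) * tc β k := by
  set H := HH β (2 ^ n + 1) R with hH
  have hHd : DifferentiableOn ℂ H (ball 0 1) := HH_diff hβ.diff _ _
  set G : ℂ → ℂ := fun x => x * deriv β x - 1 * β x with hG
  have hGd : DifferentiableOn ℂ G (ball 0 1) :=
    (differentiableOn_id.mul (hβ.diff.deriv isOpen_ball)).sub (hβ.diff.const_mul _)
  have hBd : DifferentiableOn ℂ (BB 2 β n) (ball 0 1) := BB_diff hβ.diff n
  have hF1d : DifferentiableOn ℂ (fun x => (BB 2 β n x - 1) * G x) (ball 0 1) :=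
    (hBd.sub (differentiableOn_const _)).mul hGd
  have h1 : tc (fun x => x * deriv H x - ((2 ^ n + 1 : ℕ) : ℂ) * H x) k =
      tc (fun x => (BB 2 β n x - 1) * G x + G x) k := by
    apply tc_congr
    · exact (differentiableOn_id.mul (hHd.deriv isOpen_ball)).sub (hHd.const_mul _)
    · exact hF1d.add hGd
    · intro x hx hx0
      rw [key_identity hβ hR hRd hx hx0]
      simp only [hG]
      ring
  have hF1m : tc (fun x => (BB 2 β n x - 1) * G x) k = 0 := by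
    obtain ⟨C, hC⟩ := hβ.order n
    obtain ⟨CW, hCW⟩ : ∃ CW, ∀ x ∈ closedBall (0 : ℂ) (1 / 2), ‖G x‖ ≤ CW :=
      (isCompact_closedBall (0 : ℂ) (1 / 2)).exists_bound_of_continuousOn
        (hGd.continuousOn.mono (closedBall_subset_ball (by norm_num)))
    have hsub : ball (0 : ℂ) (1 / 2) ⊆ ball 0 1 := ball_subset_ball (by norm_num)
    have hkK : k < 2 ^ (n + 1) - 1 := by
      have h2 : 1 ≤ 2 ^ n := Nat.one_le_two_pow
      rw [pow_succ]
      omega
    apply tc_eq_zero_of_order (r := 1 / 2) (C := C * CW) (K := 2 ^ (n + 1) - 1) (by norm_num)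
      hkK (hF1d.mono hsub)
    intro x hx
    rw [norm_mul]
    have h1 := hC x hx
    have h2 := hCW x (ball_subset_closedBall hx)
    calc ‖BB 2 β n x - 1‖ * ‖G x‖ ≤ (C * ‖x‖ ^ (2 ^ (n + 1) - 1)) * CW :=
          mul_le_mul h1 h2 (norm_nonneg _) ((norm_nonneg _).trans h1)
      _ = C * CW * ‖x‖ ^ (2 ^ (n + 1) - 1) := by ring
  rw [tc_euler one_pos hHd, tc_add one_pos hF1d hGd, hF1m, zero_add, hG,
    tc_euler one_pos hβ.diff] at h1
  push_cast at h1
  linear_combination -h1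

/-! ### The radii -/

/-- the radius with `ρ ^ (2 ^ n) = 1 / 2` -/
noncomputable def rr (n : ℕ) : ℝ := (1 / 2 : ℝ) ^ (1 / (2 : ℝ) ^ n)

theorem rr_pos (n : ℕ) : 0 < rr n := Real.rpow_pos_of_pos (by norm_num) _

theorem rr_lt_one (n : ℕ) : rr n < 1 :=
  Real.rpow_lt_one (by norm_num) (by norm_num) (by positivity)

theorem rr_pow (n m : ℕ) : rr n ^ m = (1 / 2 : ℝ) ^ ((m : ℝ) / 2 ^ n) := by
  rw [rr, ← Real.rpow_natCast, ← Real.rpow_mul (by norm_num)]
  congr 1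
  ring

theorem rr_pow_self (n : ℕ) : rr n ^ (2 ^ n) = 1 / 2 := by
  rw [rr_pow]
  push_cast
  rw [div_self (by positivity), Real.rpow_one]

theorem rr_mono : Monotone rr := by
  intro a b hab
  apply Real.rpow_le_rpow_of_exponent_ge (by norm_num) (by norm_num)
  apply one_div_le_one_div_of_le (by positivity)
  exact pow_le_pow_right₀ (by norm_num) hab

theorem rr_tendsto : Tendsto rr atTop (𝓝 1) := by
  have h1 : Tendsto (fun n : ℕ => 1 / (2 : ℝ) ^ n) atTop (𝓝 0) := by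
    have := tendsto_pow_atTop_nhds_zero_of_lt_one (r := (1 / 2 : ℝ)) (by norm_num) (by norm_num)
    simpa [one_div, inv_pow] using this
  have h2 : Continuous fun t : ℝ => (1 / 2 : ℝ) ^ t := Real.continuous_const_rpow (by norm_num)
  have h3 := (h2.tendsto 0).comp h1
  rw [Real.rpow_zero] at h3
  exact h3

theorem isExt_of_beta {β : ℂ → ℂ} (hβ : IsBeta 2 β) : IsExt 1 β := ⟨hβ.diff, hβ.zero, hβ.inj⟩

theorem UU_mono (β : ℂ → ℂ) {r s : ℝ} (h : r ≤ s) : UU β r ⊆ UU β s := by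
  rintro _ ⟨x, hx, rfl⟩
  exact ⟨x, ⟨hx.1, hx.2.trans_le h⟩, rfl⟩

/-- the annular region of level `n` -/
def An (β : ℂ → ℂ) (n : ℕ) : Set ℂ := UU β 1 \ UU β (rr n)

theorem An_finite {β : ℂ → ℂ} (hβ : IsBeta 2 β) (n : ℕ) : volume (An β n) < ⊤ := by
  obtain ⟨S, -, hS⟩ := exists_large (isExt_of_beta hβ) (rr_pos n) (rr_lt_one n).le
  have h1 : An β n ⊆ closedBall 0 S := by
    intro z hz
    rw [mem_closedBall_zero_iff]
    by_contra hcon
    exact hz.2 (hS z (not_le.mp hcon))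
  exact (measure_mono h1).trans_lt (isCompact_closedBall (0 : ℂ) S).measure_lt_top

theorem vol_tendsto {β : ℂ → ℂ} (hβ : IsBeta 2 β) :
    Tendsto (fun n => volume.real (An β n)) atTop (𝓝 0) := by
  have hE := isExt_of_beta hβ
  have h1 : Tendsto (volume ∘ An β) atTop (𝓝 (volume (⋂ n, An β n))) := by
    apply tendsto_measure_iInter_atTop
    · intro n
      exact ((isOpen_UU hE le_rfl).measurableSet.diff
        (isOpen_UU hE (rr_lt_one n).le).measurableSet).nullMeasurableSet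
    · intro a b hab z hz
      exact ⟨hz.1, fun h => hz.2 (UU_mono β (rr_mono hab) h)⟩
    · exact ⟨0, (An_finite hβ 0).ne⟩
  have h2 : (⋂ n, An β n) = ∅ := by
    rw [eq_empty_iff_forall_notMem]
    intro z hz
    rw [mem_iInter] at hz
    obtain ⟨x, hx, hxz⟩ := (hz 0).1
    obtain ⟨n, hn⟩ := (rr_tendsto.eventually (lt_mem_nhds hx.2)).exists
    exact (hz n).2 ⟨x, ⟨hx.1, hn⟩, hxz⟩
  rw [h2, measure_empty] at h1
  have h3 := (ENNReal.tendsto_toReal (ENNReal.zero_ne_top)).comp h1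
  exact h3

/-- the bound of the polynomial on the annular region -/
theorem P_le_four {β : ℂ → ℂ} (hβ : IsBeta 2 β) {n : ℕ} {z : ℂ} (hz : z ∈ An β n) :
    ‖P 2 (n + 1) z‖ ≤ 4 := by
  obtain ⟨x, hx, hxz⟩ := hz.1
  have hx1 : rr n ≤ ‖x‖ := by
    by_contra hcon
    exact hz.2 ⟨x, ⟨hx.1, not_le.mp hcon⟩, hxz⟩
  have hx0 : 0 < ‖x‖ := norm_pos_iff.mpr hx.1
  have h1 : 1 < ‖x⁻¹‖ := by
    rw [norm_inv]
    exact (one_lt_inv₀ hx0).mpr hx.2
  have h2 := P_psi_le le_rfl hβ n h1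
  rw [inv_inv] at h2
  simp only at hxz
  rw [hxz] at h2
  refine h2.trans ?_
  rw [norm_inv, inv_pow]
  have h3 : (1 / 2 : ℝ) ≤ ‖x‖ ^ (2 ^ n) := by
    rw [← rr_pow_self n]
    exact pow_le_pow_left₀ (rr_pos n).le hx1 _
  have h4 : (‖x‖ ^ (2 ^ n))⁻¹ ≤ 2 := by
    rw [inv_le_comm₀ (by positivity) (by norm_num)]
    linarith
  linarith

theorem ratio_le {r s : ℝ} (hr : 0 < r) (hrs : r ≤ s) {a b : ℕ} (hab : a ≤ b) :
    s ^ a / s ^ b ≤ r ^ a / r ^ b := by
  have hs : 0 < s := hr.trans_le hrs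
  obtain ⟨c, rfl⟩ := Nat.exists_eq_add_of_le hab
  rw [div_le_div_iff₀ (by positivity) (by positivity), pow_add, pow_add]
  have h1 : r ^ c ≤ s ^ c := pow_le_pow_left₀ hr.le hrs c
  calc s ^ a * (r ^ a * r ^ c) = s ^ a * r ^ a * r ^ c := by ring
    _ ≤ s ^ a * r ^ a * s ^ c := mul_le_mul_of_nonneg_left h1 (by positivity)
    _ = r ^ a * (s ^ a * s ^ c) := by ring

theorem ratio_ge {r s : ℝ} (hr : 0 < r) (hrs : r ≤ s) {a b : ℕ} (hab : b ≤ a) :
    r ^ a / r ^ b ≤ s ^ a / s ^ b := by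
  have hs : 0 < s := hr.trans_le hrs
  obtain ⟨c, rfl⟩ := Nat.exists_eq_add_of_le hab
  rw [div_le_div_iff₀ (by positivity) (by positivity), pow_add, pow_add]
  have h1 : r ^ c ≤ s ^ c := pow_le_pow_left₀ hr.le hrs c
  calc r ^ b * r ^ c * s ^ b = r ^ b * s ^ b * r ^ c := by ring
    _ ≤ r ^ b * s ^ b * s ^ c := mul_le_mul_of_nonneg_left h1 (by positivity)
    _ = s ^ b * s ^ c * r ^ b := by ring

theorem term_nonneg {r s : ℝ} (hr : 0 < r) (hrs : r ≤ s) (D k : ℕ) (t : ℝ) (ht : 0 ≤ t) :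
    0 ≤ ((D : ℝ) - k) * t * (r ^ (2 * k) / r ^ (2 * D) - s ^ (2 * k) / s ^ (2 * D)) := by
  rcases le_total k D with h | h
  · have h1 := ratio_le hr hrs (show 2 * k ≤ 2 * D by omega)
    have h2 : (0 : ℝ) ≤ (D : ℝ) - k := by
      have : (k : ℝ) ≤ D := by exact_mod_cast h
      linarith
    exact mul_nonneg (mul_nonneg h2 ht) (by linarith)
  · have h1 := ratio_ge hr hrs (show 2 * D ≤ 2 * k by omega)
    have h2 : (D : ℝ) - k ≤ 0 := by
      have : (D : ℝ) ≤ k := by exact_mod_cast h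
      linarith
    exact mul_nonneg_of_nonpos_of_nonpos (mul_nonpos_of_nonpos_of_nonneg h2 ht) (by linarith)

/-- finite partial sums of the area formula -/
theorem tail_sum {β : ℂ → ℂ} (hβ : IsBeta 2 β) {n : ℕ} {R : Polynomial ℂ}
    (hR : R.derivative = PP 2 (n + 1)) (hRd : R.natDegree ≤ 2 ^ n + 1) (F : Finset ℕ) :
    ∑ k ∈ F, (((2 ^ n + 1 : ℕ) : ℝ) - k) * ‖tc (HH β (2 ^ n + 1) R) k‖ ^ 2 *
      (rr n ^ (2 * k) / rr n ^ (2 * (2 ^ n + 1)) - 1) ≤ 16 / Real.pi * volume.real (An β n) := by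
  have hE := isExt_of_beta hβ
  set D : ℕ := 2 ^ n + 1 with hD
  set H := HH β D R with hH
  set ρ := rr n with hρ
  have hρ0 : 0 < ρ := rr_pos n
  have hρ1 : ρ < 1 := rr_lt_one n
  have hHd : DifferentiableOn ℂ H (ball 0 1) := HH_diff hβ.diff _ _
  have hpi := Real.pi_pos
  have key : ∀ s ∈ Ioo ρ 1, ∑ k ∈ F, ((D : ℝ) - k) * ‖tc H k‖ ^ 2 *
      (ρ ^ (2 * k) / ρ ^ (2 * D) - s ^ (2 * k) / s ^ (2 * D)) ≤
        16 / Real.pi * volume.real (An β n) := by
    intro s hs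
    have hs0 : 0 < s := hρ0.trans hs.1
    obtain ⟨a1, i1⟩ := area_formula hρ0 hρ1 hE hHd (Q := R) (D := D)
      (fun x _ hx0 => HH_eq hRd hx0)
    obtain ⟨a2, -⟩ := area_formula hs0 hs.2 hE hHd (Q := R) (D := D)
      (fun x _ hx0 => HH_eq hRd hx0)
    have b3 := (a1.div_const (ρ ^ (2 * D))).sub (a2.div_const (s ^ (2 * D)))
    set I1 := ∫ z in (UU β ρ)ᶜ, ‖(Polynomial.derivative R).eval z‖ ^ 2 with hI1
    set I2 := ∫ z in (UU β s)ᶜ, ‖(Polynomial.derivative R).eval z‖ ^ 2 with hI2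
    have hval : ρ ^ (2 * D) / Real.pi * I1 / ρ ^ (2 * D) - s ^ (2 * D) / Real.pi * I2 / s ^ (2 * D) =
        (I1 - I2) / Real.pi := by
      have h1 : ρ ^ (2 * D) ≠ 0 := by positivity
      have h2 : s ^ (2 * D) ≠ 0 := by positivity
      field_simp
    have hfun : (fun k : ℕ => ((D : ℝ) - k) * (‖tc H k‖ ^ 2 * ρ ^ (2 * k)) / ρ ^ (2 * D) -
        ((D : ℝ) - k) * (‖tc H k‖ ^ 2 * s ^ (2 * k)) / s ^ (2 * D)) =
        fun k : ℕ => ((D : ℝ) - k) * ‖tc H k‖ ^ 2 *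
          (ρ ^ (2 * k) / ρ ^ (2 * D) - s ^ (2 * k) / s ^ (2 * D)) := by
      funext k
      ring
    rw [hfun, hval] at b3
    have b4 := sum_le_hasSum F
      (fun k _ => term_nonneg hρ0 hs.1.le D k (‖tc H k‖ ^ 2) (by positivity)) b3
    refine b4.trans ?_
    -- the integral
    have hsub : (UU β s)ᶜ ⊆ (UU β ρ)ᶜ := compl_subset_compl.mpr (UU_mono β hs.1.le)
    have hdiff : I1 - I2 =
        ∫ z in (UU β ρ)ᶜ \ (UU β s)ᶜ, ‖(Polynomial.derivative R).eval z‖ ^ 2 := by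
      rw [setIntegral_sdiff (isOpen_UU hE hs.2.le).measurableSet.compl i1 hsub]
    have hsubA : (UU β ρ)ᶜ \ (UU β s)ᶜ ⊆ An β n := by
      rintro z ⟨h1, h2⟩
      exact ⟨UU_mono β hs.2.le (not_not.mp h2), h1⟩
    have hfin : volume ((UU β ρ)ᶜ \ (UU β s)ᶜ) < ⊤ :=
      (measure_mono hsubA).trans_lt (An_finite hβ n)
    have hb : ‖∫ z in (UU β ρ)ᶜ \ (UU β s)ᶜ, ‖(Polynomial.derivative R).eval z‖ ^ 2‖ ≤
        16 * volume.real ((UU β ρ)ᶜ \ (UU β s)ᶜ) := by
      apply norm_setIntegral_le_of_norm_le_const hfin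
      intro z hz
      have h3 := P_le_four hβ (hsubA hz)
      rw [hR, eval_PP, norm_pow, norm_norm]
      nlinarith [norm_nonneg (P 2 (n + 1) z)]
    have hm : volume.real ((UU β ρ)ᶜ \ (UU β s)ᶜ) ≤ volume.real (An β n) :=
      measureReal_mono hsubA (An_finite hβ n).ne
    have h4 : I1 - I2 ≤ 16 * volume.real (An β n) := by
      rw [hdiff]
      refine (le_abs_self _).trans ((Real.norm_eq_abs _).symm.le.trans (hb.trans ?_))
      linarith
    rw [div_mul_eq_mul_div]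
    exact div_le_div_of_nonneg_right h4 hpi.le
  have hlim : Tendsto (fun s : ℝ => ∑ k ∈ F, ((D : ℝ) - k) * ‖tc H k‖ ^ 2 *
      (ρ ^ (2 * k) / ρ ^ (2 * D) - s ^ (2 * k) / s ^ (2 * D))) (𝓝[<] 1)
      (𝓝 (∑ k ∈ F, ((D : ℝ) - k) * ‖tc H k‖ ^ 2 * (ρ ^ (2 * k) / ρ ^ (2 * D) - 1))) := by
    apply tendsto_finsetSum
    intro k _
    have h1 : ContinuousAt (fun s : ℝ => s ^ (2 * k) / s ^ (2 * D)) 1 :=
      ContinuousAt.div (by fun_prop) (by fun_prop) (by simp)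
    have h2 : Tendsto (fun s : ℝ => s ^ (2 * k) / s ^ (2 * D)) (𝓝[<] 1) (𝓝 1) := by
      have := h1.tendsto
      simp only [one_pow, div_one] at this
      exact this.mono_left nhdsWithin_le_nhds
    exact (h2.const_sub _).const_mul _
  refine le_of_tendsto hlim ?_
  filter_upwards [Ioo_mem_nhdsLT hρ1] with s hs using key s hs

theorem area_tail {β : ℂ → ℂ} (hβ : IsBeta 2 β) :
    ∃ (R : ℕ → Polynomial ℂ) (h : ℕ → ℕ → ℂ),
      (∀ n, (R n).derivative = PP 2 (n + 1)) ∧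
      (∀ n, ∀ x ∈ ball (0 : ℂ) 1, x ≠ 0 →
        HasSum (fun k => h n k * x ^ k) (x ^ (2 ^ n + 1) * (R n).eval (x⁻¹ * β x))) ∧
      (∀ n k : ℕ, 1 ≤ n → k ≤ 2 * 2 ^ n - 2 →
        ((2 : ℂ) ^ n + 1 - k) * h n k = (1 - (k : ℂ)) * tc β k) ∧
      (∀ δ ε : ℝ, 0 < δ → 0 < ε → ∀ᶠ n : ℕ in atTop, ∀ F : Finset ℕ,
        (∀ k ∈ F, δ * 2 ^ n ≤ |(2 : ℝ) ^ n + 1 - k|) →
          ∑ k ∈ F, |(2 : ℝ) ^ n + 1 - k| * ‖h n k‖ ^ 2 ≤ ε) := by
  have hex : ∀ n, ∃ R : Polynomial ℂ, R.derivative = PP 2 (n + 1) ∧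
      R.natDegree ≤ 2 ^ n + 1 := by
    intro n
    obtain ⟨R, hR⟩ := Pool.Agent.H713R2.exists_antideriv (PP 2 (n + 1))
    refine ⟨R, hR, ?_⟩
    have h1 := Polynomial.natDegree_derivative R
    rw [hR, natDegree_PP le_rfl] at h1
    omega
  choose R hR hRd using hex
  refine ⟨R, fun n k => tc (HH β (2 ^ n + 1) (R n)) k, hR, ?_, ?_, ?_⟩
  · intro n x hx hx0
    rw [← HH_eq (hRd n) hx0]
    exact hasSum_tc (HH_diff hβ.diff _ _) hx
  · intro n k _ hk
    exact coef_rel hβ (hR n) (hRd n) hk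
  · intro δ ε hδ hε
    set b : ℝ := (1 / 2 : ℝ) ^ (2 * δ) with hb
    have hb0 : 0 < b := Real.rpow_pos_of_pos (by norm_num) _
    have hb1 : b < 1 := Real.rpow_lt_one (by norm_num) (by norm_num) (by positivity)
    have hc : 0 < 1 - b := by linarith
    have hlim : Tendsto (fun n => 16 / Real.pi * volume.real (An β n)) atTop (𝓝 0) := by
      have := (vol_tendsto hβ).const_mul (16 / Real.pi)
      rwa [mul_zero] at this
    filter_upwards [hlim.eventually (ge_mem_nhds (show 0 < (1 - b) * ε by positivity))] with n hn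
    intro F hF
    have h1 := (tail_sum hβ (hR n) (hRd n) F).trans hn
    have h2 : (1 - b) * ∑ k ∈ F, |(2 : ℝ) ^ n + 1 - k| * ‖tc (HH β (2 ^ n + 1) (R n)) k‖ ^ 2 ≤
        ∑ k ∈ F, (((2 ^ n + 1 : ℕ) : ℝ) - k) * ‖tc (HH β (2 ^ n + 1) (R n)) k‖ ^ 2 *
          (rr n ^ (2 * k) / rr n ^ (2 * (2 ^ n + 1)) - 1) := by
      rw [Finset.mul_sum]
      apply Finset.sum_le_sum
      intro k hk
      have h3 := hF k hk
      have h4 : rr n ^ (2 * k) / rr n ^ (2 * (2 ^ n + 1)) =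
          (1 / 2 : ℝ) ^ (-(2 * (((2 : ℝ) ^ n + 1 - k) / 2 ^ n))) := by
        rw [rr_pow, rr_pow, ← Real.rpow_sub (by norm_num)]
        congr 1
        push_cast
        ring
      rw [h4]
      have hcast : (((2 ^ n + 1 : ℕ) : ℝ) - k) = (2 : ℝ) ^ n + 1 - k := by push_cast; ring
      rw [hcast]
      set u : ℝ := (2 : ℝ) ^ n + 1 - k with hu
      set t : ℝ := ‖tc (HH β (2 ^ n + 1) (R n)) k‖ ^ 2 with ht
      have ht0 : 0 ≤ t := by positivity
      have hK : (0 : ℝ) < 2 ^ n := by positivity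
      rcases le_total 0 u with hu0 | hu0
      · rw [abs_of_nonneg hu0] at h3 ⊢
        have h5 : δ ≤ u / 2 ^ n := by rw [le_div_iff₀ hK]; exact h3
        have h6 : b⁻¹ ≤ (1 / 2 : ℝ) ^ (-(2 * (u / 2 ^ n))) := by
          rw [hb, ← Real.rpow_neg (by norm_num)]
          apply Real.rpow_le_rpow_of_exponent_ge (by norm_num) (by norm_num)
          linarith
        have h7 : 1 - b ≤ b⁻¹ - 1 := by
          have : 2 ≤ b + b⁻¹ := by
            have h8 : b * b⁻¹ = 1 := mul_inv_cancel₀ hb0.ne'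
            nlinarith [sq_nonneg (b - b⁻¹), inv_pos.mpr hb0]
          linarith
        have h8 : 0 ≤ u * t := mul_nonneg hu0 ht0
        calc (1 - b) * (u * t) = u * t * (1 - b) := by ring
          _ ≤ u * t * ((1 / 2 : ℝ) ^ (-(2 * (u / 2 ^ n))) - 1) :=
            mul_le_mul_of_nonneg_left (by linarith) h8
      · rw [abs_of_nonpos hu0] at h3 ⊢
        have h5 : u / 2 ^ n ≤ -δ := by rw [div_le_iff₀ hK]; linarith
        have h6 : (1 / 2 : ℝ) ^ (-(2 * (u / 2 ^ n))) ≤ b := by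
          apply Real.rpow_le_rpow_of_exponent_ge (by norm_num) (by norm_num)
          linarith
        have h8 : 0 ≤ -u * t := mul_nonneg (by linarith) ht0
        calc (1 - b) * (-u * t) = -u * t * (1 - b) := by ring
          _ ≤ -u * t * (1 - (1 / 2 : ℝ) ^ (-(2 * (u / 2 ^ n)))) :=
            mul_le_mul_of_nonneg_left (by linarith) h8
          _ = u * t * ((1 / 2 : ℝ) ^ (-(2 * (u / 2 ^ n))) - 1) := by ring
    have h3 := h2.trans h1
    exact le_of_mul_le_mul_left h3 hc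

end Pool.Agent.T6.H38.LC
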