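import Pool.Agent.T6.H38.CoTree

/-!
# Universal coanalytic sets and the uniformised coanalytic set
-/

set_option autoImplicit false

open Set MeasureTheory

namespace Pool.Agent.T6.H38.CoA

/-- Codes of indices: an element of the Baire space codes a sequence of elements of `ℕ → ℤ` and a
sequence of codes for open sets. -/
def code (i : (ℕ × ℕ) ⊕ (ℕ × List ℕ × List ℕ)) : ℕ := Encodable.encode i

theorem code_inj {i j : (ℕ × ℕ) ⊕ (ℕ × List ℕ × List ℕ)} (h : code i = code j) : i = j :=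
  Encodable.encode_injective h

/-- The sequence of elements of `ℕ → ℤ` coded by `w`. -/
def sq (w : ℕ → ℕ) (n : ℕ) (i : ℕ) : ℤ := Equiv.intEquivNat.symm (w (code (Sum.inl (n, i))))

/-- The sequence of codes of open sets coded by `w`. -/
def cd (w : ℕ → ℕ) (n : ℕ) (σ τ : List ℕ) : Prop := w (code (Sum.inr (n, σ, τ))) = 1

theorem exists_code (s : ℕ → ℕ → ℤ) (c : ℕ → List ℕ → List ℕ → Prop) :
    ∃ w : ℕ → ℕ, (∀ n, sq w n = s n) ∧ ∀ n σ τ, cd w n σ τ ↔ c n σ τ := by
  classical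
  let w : ℕ → ℕ := fun k =>
    match (Encodable.decode k : Option ((ℕ × ℕ) ⊕ (ℕ × List ℕ × List ℕ))) with
    | some (Sum.inl (n, i)) => Equiv.intEquivNat (s n i)
    | some (Sum.inr (n, σ, τ)) => if c n σ τ then 1 else 0
    | none => 0
  have h1 : ∀ n i, w (code (Sum.inl (n, i))) = Equiv.intEquivNat (s n i) := by
    intro n i
    simp only [w, code, Encodable.encodek]
  have h2 : ∀ n σ τ, w (code (Sum.inr (n, σ, τ))) = if c n σ τ then 1 else 0 := by
    intro n σ τ
    simp only [w, code, Encodable.encodek]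
  refine ⟨w, fun n => ?_, fun n σ τ => ?_⟩
  · funext i
    unfold sq
    rw [h1, Equiv.symm_apply_apply]
  · unfold cd
    rw [h2]
    by_cases h : c n σ τ
    · simp [h]
    · simp [h]

/-- The tree attached to `w` and `n`. -/
def InT (w : ℕ → ℕ) (n : ℕ) : List ℕ → Prop
  | [] => True
  | a :: τ => ¬ cd w n (pre w (τ.length + 1)) (a :: τ) ∧ InT w n τ

theorem inT_tail (w : ℕ → ℕ) (n : ℕ) (a : ℕ) (τ : List ℕ) (h : InT w n (a :: τ)) : InT w n τ := h.2

theorem inT_pre (w : ℕ → ℕ) (n : ℕ) (y : ℕ → ℕ) :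
    (∀ k, InT w n (pre y k)) ↔ ∀ k, ¬ cd w n (pre w (k + 1)) (pre y (k + 1)) := by
  constructor
  · intro h k
    have h1 := (h (k + 1)).1
    rwa [pre_length] at h1
  · intro h k
    induction k with
    | zero => trivial
    | succ k ih =>
      refine ⟨?_, ih⟩
      rw [pre_length]
      exact h k

/-- Open sets of the product of two Baire spaces. -/
theorem exists_cyl {O : Set ((ℕ → ℕ) × (ℕ → ℕ))} (hO : IsOpen O) {w y : ℕ → ℕ} (h : (w, y) ∈ O) :
    ∃ k, ∀ w' y', pre w' k = pre w k → pre y' k = pre y k → (w', y') ∈ O := by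
  have key : ∀ {U : Set (ℕ → ℕ)}, IsOpen U → ∀ {z : ℕ → ℕ}, z ∈ U →
      ∃ k, ∀ z', pre z' k = pre z k → z' ∈ U := by
    intro U hU z hz
    obtain ⟨I, u, hu, hsub⟩ := isOpen_pi_iff.1 hU z hz
    refine ⟨I.sup id + 1, fun z' hz' => hsub ?_⟩
    intro i hi
    have hi' : i < I.sup id + 1 := Nat.lt_succ_of_le (Finset.le_sup (f := id) hi)
    rw [pre_eq_iff.1 hz' i hi']
    exact (hu i hi).2
  obtain ⟨U, V, hU, hV, hw, hy, hUV⟩ := isOpen_prod_iff.1 hO w y h
  obtain ⟨k, hk⟩ := key hU hw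
  obtain ⟨l, hl⟩ := key hV hy
  refine ⟨max k l, fun w' y' h1 h2 => hUV ⟨hk _ ?_, hl _ ?_⟩⟩
  · rw [pre_eq_iff] at h1 ⊢
    exact fun i hi => h1 i (lt_of_lt_of_le hi (le_max_left _ _))
  · rw [pre_eq_iff] at h2 ⊢
    exact fun i hi => h2 i (lt_of_lt_of_le hi (le_max_right _ _))

/-- Every coanalytic set has a code. -/
theorem exists_cd {G : Set (ℕ → ℕ)} (hG : AnalyticSet Gᶜ) :
    ∃ c : List ℕ → List ℕ → Prop, ∀ w : ℕ → ℕ,
      w ∈ G ↔ ∀ y : ℕ → ℕ, ∃ k, c (pre w (k + 1)) (pre y (k + 1)) := by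
  obtain ⟨O, hO, hGO⟩ : ∃ O : Set ((ℕ → ℕ) × (ℕ → ℕ)), IsOpen O ∧
      ∀ w, w ∈ G ↔ ∀ y, (w, y) ∈ O := by
    rw [AnalyticSet] at hG
    rcases hG with h | ⟨f, hf, hfr⟩
    · refine ⟨univ, isOpen_univ, fun w => ⟨fun _ _ => mem_univ _, fun _ => ?_⟩⟩
      by_contra hw
      have : w ∈ Gᶜ := hw
      rw [h] at this
      exact this
    · refine ⟨{p | f p.2 ≠ p.1}, isOpen_ne_fun (hf.comp continuous_snd) continuous_fst,
        fun w => ?_⟩
      constructor
      · intro hw y hy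
        have : w ∈ Gᶜ := by rw [← hfr]; exact ⟨y, hy⟩
        exact this hw
      · intro h
        by_contra hw
        have : w ∈ Gᶜ := hw
        rw [← hfr] at this
        obtain ⟨y, hy⟩ := this
        exact h y hy
  refine ⟨fun σ τ => σ.length = τ.length ∧ ∀ w y : ℕ → ℕ, pre w σ.length = σ →
    pre y τ.length = τ → (w, y) ∈ O, fun w => ?_⟩
  rw [hGO]
  constructor
  · intro h y
    obtain ⟨k, hk⟩ := exists_cyl hO (h y)
    refine ⟨k, ?_, ?_⟩
    · rw [pre_length, pre_length]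
    · intro w' y' h1 h2
      rw [pre_length] at h1 h2
      refine hk w' y' ?_ ?_
      · rw [pre_eq_iff] at h1 ⊢
        exact fun i hi => h1 i (Nat.lt_succ_of_lt hi)
      · rw [pre_eq_iff] at h2 ⊢
        exact fun i hi => h2 i (Nat.lt_succ_of_lt hi)
  · intro h y
    obtain ⟨k, _, hk⟩ := h y
    exact hk w y (by rw [pre_length]) (by rw [pre_length])

/-! ### Measurability -/

theorem measurableSet_pre (k : ℕ) (ρ : List ℕ) : MeasurableSet {w : ℕ → ℕ | pre w k = ρ} := by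
  induction k generalizing ρ with
  | zero =>
    by_cases h : ρ = []
    · subst h
      simp [pre]
    · have : {w : ℕ → ℕ | pre w 0 = ρ} = ∅ := by
        ext w
        simp only [mem_setOf_eq, mem_empty_iff_false, iff_false]
        exact fun h' => h h'.symm
      rw [this]
      exact MeasurableSet.empty
  | succ k ih =>
    cases ρ with
    | nil =>
      have : {w : ℕ → ℕ | pre w (k + 1) = []} = ∅ := by
        ext w
        simp [pre]
      rw [this]
      exact MeasurableSet.empty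
    | cons a ρ =>
      have : {w : ℕ → ℕ | pre w (k + 1) = a :: ρ} =
          {w : ℕ → ℕ | w k = a} ∩ {w : ℕ → ℕ | pre w k = ρ} := by
        ext w
        simp [pre]
      rw [this]
      exact (measurable_pi_apply k (measurableSet_singleton a)).inter (ih ρ)

theorem measurableSet_inT (n : ℕ) (τ : List ℕ) : MeasurableSet {w : ℕ → ℕ | InT w n τ} := by
  induction τ with
  | nil => simp [InT]
  | cons a τ ih =>
    have : {w : ℕ → ℕ | InT w n (a :: τ)} =
        (⋃ ρ : List ℕ, ({w : ℕ → ℕ | pre w (τ.length + 1) = ρ} ∩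
          {w : ℕ → ℕ | w (code (Sum.inr (n, ρ, a :: τ))) = 1}))ᶜ ∩ {w : ℕ → ℕ | InT w n τ} := by
      ext w
      simp [InT, cd]
    rw [this]
    refine (MeasurableSet.iUnion fun ρ => ?_).compl.inter ih
    exact (measurableSet_pre _ _).inter (measurable_pi_apply _ (measurableSet_singleton 1))

/-- The set of `w` such that the tree attached to `w` and `n` is ill-founded. -/
theorem analytic_not_acc (n : ℕ) : AnalyticSet {w : ℕ → ℕ | ¬ Acc (rel (InT w n)) []} := by
  have h1 : {w : ℕ → ℕ | ¬ Acc (rel (InT w n)) []} =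
      Prod.fst '' {p : (ℕ → ℕ) × (ℕ → ℕ) | ∀ k, InT p.1 n (pre p.2 k)} := by
    ext w
    rw [mem_setOf_eq, acc_iff (P := InT w n) trivial, not_not]
    constructor
    · rintro ⟨y, hy⟩
      exact ⟨(w, y), hy, rfl⟩
    · rintro ⟨⟨w', y⟩, hy, rfl⟩
      exact ⟨y, hy⟩
  rw [h1]
  refine AnalyticSet.image_of_continuous (MeasurableSet.analyticSet ?_) continuous_fst
  have h2 : {p : (ℕ → ℕ) × (ℕ → ℕ) | ∀ k, InT p.1 n (pre p.2 k)} =
      ⋂ k, ⋃ τ : List ℕ, ((Prod.snd ⁻¹' {y : ℕ → ℕ | pre y k = τ}) ∩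
        (Prod.fst ⁻¹' {w : ℕ → ℕ | InT w n τ})) := by
    ext p
    simp
  rw [h2]
  refine MeasurableSet.iInter fun k => MeasurableSet.iUnion fun τ => ?_
  exact (measurable_snd (measurableSet_pre k τ)).inter (measurable_fst (measurableSet_inT n τ))

/-- Maps of finite sequences coded by elements of the Baire space. -/
def fn (g : ℕ → ℕ) (τ : List ℕ) : List ℕ :=
  (Denumerable.eqv (List ℕ)).symm (g (Denumerable.eqv (List ℕ) τ))

theorem measurableSet_fn (τ ρ : List ℕ) : MeasurableSet {g : ℕ → ℕ | fn g τ = ρ} := by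
  have : {g : ℕ → ℕ | fn g τ = ρ} =
      {g : ℕ → ℕ | g (Denumerable.eqv (List ℕ) τ) = Denumerable.eqv (List ℕ) ρ} := by
    ext g
    simp only [fn, mem_setOf_eq, Equiv.symm_apply_eq]
  rw [this]
  exact measurable_pi_apply _ (measurableSet_singleton _)

theorem exists_fn (f : List ℕ → List ℕ) : ∃ g, ∀ τ, fn g τ = f τ := by
  refine ⟨fun k => Denumerable.eqv (List ℕ) (f ((Denumerable.eqv (List ℕ)).symm k)), fun τ => ?_⟩
  simp [fn]

theorem analytic_emb (m n : ℕ) (σ : List ℕ) :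
    AnalyticSet {w : ℕ → ℕ | Emb (InT w m) (InT w n) σ} := by
  have h1 : {w : ℕ → ℕ | Emb (InT w m) (InT w n) σ} =
      Prod.fst '' {p : (ℕ → ℕ) × (ℕ → ℕ) | fn p.2 [] = σ ∧
        (∀ τ, InT p.1 m τ → InT p.1 n (fn p.2 τ)) ∧
        ∀ a τ, InT p.1 m (a :: τ) → ∃ b, fn p.2 (a :: τ) = b :: fn p.2 τ} := by
    ext w
    constructor
    · rintro ⟨f, hf⟩
      obtain ⟨g, hg⟩ := exists_fn f
      refine ⟨(w, g), ?_, rfl⟩
      simpa only [mem_setOf_eq, hg] using hf
    · rintro ⟨⟨w', g⟩, hg, rfl⟩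
      exact ⟨fn g, hg⟩
  rw [h1]
  refine AnalyticSet.image_of_continuous (MeasurableSet.analyticSet ?_) continuous_fst
  have h2 : {p : (ℕ → ℕ) × (ℕ → ℕ) | fn p.2 [] = σ ∧
        (∀ τ, InT p.1 m τ → InT p.1 n (fn p.2 τ)) ∧
        ∀ a τ, InT p.1 m (a :: τ) → ∃ b, fn p.2 (a :: τ) = b :: fn p.2 τ} =
      (Prod.snd ⁻¹' {g : ℕ → ℕ | fn g [] = σ}) ∩
      ((⋂ τ : List ℕ, ((Prod.fst ⁻¹' {w : ℕ → ℕ | InT w m τ})ᶜ ∪
        ⋃ ρ : List ℕ, ((Prod.snd ⁻¹' {g : ℕ → ℕ | fn g τ = ρ}) ∩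
          (Prod.fst ⁻¹' {w : ℕ → ℕ | InT w n ρ})))) ∩
      ⋂ a : ℕ, ⋂ τ : List ℕ, ((Prod.fst ⁻¹' {w : ℕ → ℕ | InT w m (a :: τ)})ᶜ ∪
        ⋃ b : ℕ, ⋃ ρ : List ℕ, ((Prod.snd ⁻¹' {g : ℕ → ℕ | fn g τ = ρ}) ∩
          (Prod.snd ⁻¹' {g : ℕ → ℕ | fn g (a :: τ) = b :: ρ})))) := by
    ext p
    simp only [mem_setOf_eq, mem_inter_iff, mem_preimage, mem_iInter, mem_union, mem_compl_iff,
      mem_iUnion, exists_eq_left']
    constructor
    · rintro ⟨h1, h2, h3⟩
      exact ⟨h1, fun τ => or_iff_not_imp_left.2 fun h => h2 τ (not_not.1 h),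
        fun a τ => or_iff_not_imp_left.2 fun h => h3 a τ (not_not.1 h)⟩
    · rintro ⟨h1, h2, h3⟩
      exact ⟨h1, fun τ h => (h2 τ).resolve_left (not_not.2 h),
        fun a τ h => (h3 a τ).resolve_left (not_not.2 h)⟩
  rw [h2]
  refine (measurable_snd (measurableSet_fn _ _)).inter (MeasurableSet.inter ?_ ?_)
  · refine MeasurableSet.iInter fun τ => MeasurableSet.union ?_ ?_
    · exact (measurable_fst (measurableSet_inT m τ)).compl
    · exact MeasurableSet.iUnion fun ρ => (measurable_snd (measurableSet_fn τ ρ)).inter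
        (measurable_fst (measurableSet_inT n ρ))
  · refine MeasurableSet.iInter fun a => MeasurableSet.iInter fun τ => MeasurableSet.union ?_ ?_
    · exact (measurable_fst (measurableSet_inT m (a :: τ))).compl
    · exact MeasurableSet.iUnion fun b => MeasurableSet.iUnion fun ρ =>
        (measurable_snd (measurableSet_fn τ ρ)).inter
          (measurable_snd (measurableSet_fn (a :: τ) (b :: ρ)))

theorem analytic_empty {α : Type*} [TopologicalSpace α] : AnalyticSet (∅ : Set α) := by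
  rw [AnalyticSet]
  exact Or.inl rfl

theorem analytic_union {α : Type*} [TopologicalSpace α] {s t : Set α} (hs : AnalyticSet s)
    (ht : AnalyticSet t) : AnalyticSet (s ∪ t) := by
  rw [union_eq_iUnion]
  exact AnalyticSet.iUnion fun b => by cases b <;> assumption

theorem analytic_not_star (n : ℕ) : AnalyticSet {w : ℕ → ℕ | ¬ Star (InT w) n} := by
  classical
  have h : {w : ℕ → ℕ | ¬ Star (InT w) n} = {w : ℕ → ℕ | ¬ Acc (rel (InT w n)) []} ∪
      ((⋃ m : ℕ, if m < n then {w : ℕ → ℕ | Emb (InT w m) (InT w n) []} else ∅) ∪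
      ⋃ m : ℕ, ⋃ b : ℕ, if n < m then {w : ℕ → ℕ | Emb (InT w m) (InT w n) [b]} else ∅) := by
    ext w
    simp only [mem_setOf_eq, mem_union, mem_iUnion, Star]
    constructor
    · intro h
      by_cases h1 : Acc (rel (InT w n)) []
      · right
        by_contra hc
        push Not at hc
        refine h ⟨h1, fun m hm hE => hc.1 m ?_, fun m hm b hE => hc.2 m b ?_⟩
        · rw [if_pos hm]; exact hE
        · rw [if_pos hm]; exact hE
      · exact Or.inl h1
    · rintro (h | ⟨m, h⟩ | ⟨m, b, h⟩) ⟨h1, h2, h3⟩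
      · exact h h1
      · split_ifs at h with hm
        · exact h2 m hm h
        · exact h
      · split_ifs at h with hm
        · exact h3 m hm b h
        · exact h
  rw [h]
  refine analytic_union (analytic_not_acc n) (analytic_union ?_ ?_)
  · refine AnalyticSet.iUnion fun m => ?_
    split_ifs
    · exact analytic_emb _ _ _
    · exact analytic_empty
  · refine AnalyticSet.iUnion fun m => AnalyticSet.iUnion fun b => ?_
    split_ifs
    · exact analytic_emb _ _ _
    · exact analytic_empty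

end Pool.Agent.T6.H38.CoA
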