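import Mathlib

/-!
# Trees of finite sequences and comparison of ranks

Finite sequences are written in reversed order, so that `a :: τ` extends `τ` by one entry.
-/

set_option autoImplicit false

open Set

namespace Pool.Agent.T6.H38.CoA

/-- The (reversed) initial segment of length `n` of `y`. -/
def pre (y : ℕ → ℕ) : ℕ → List ℕ
  | 0 => []
  | n + 1 => y n :: pre y n

theorem pre_length (y : ℕ → ℕ) (n : ℕ) : (pre y n).length = n := by
  induction n with
  | zero => rfl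
  | succ n ih => simp [pre, ih]

theorem pre_eq_iff {y z : ℕ → ℕ} {n : ℕ} : pre y n = pre z n ↔ ∀ i < n, y i = z i := by
  induction n with
  | zero => simp [pre]
  | succ n ih =>
    simp only [pre, List.cons.injEq, ih]
    constructor
    · rintro ⟨h1, h2⟩ i hi
      rcases Nat.lt_succ_iff_lt_or_eq.1 hi with h | h
      · exact h2 i h
      · rw [h, h1]
    · intro h
      exact ⟨h n (Nat.lt_succ_self n), fun i hi => h i (Nat.lt_succ_of_lt hi)⟩

theorem pre_getD (y : ℕ → ℕ) {n k : ℕ} (hk : k ≤ n) : (pre y (n + 1)).getD (n - k) 0 = y k := by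
  induction n with
  | zero =>
    obtain rfl : k = 0 := Nat.le_zero.1 hk
    simp [pre]
  | succ n ih =>
    rcases Nat.lt_or_ge n k with h | h
    · obtain rfl : k = n + 1 := le_antisymm hk h
      simp [pre]
    · have h1 : n + 1 - k = (n - k) + 1 := by omega
      rw [h1]
      have h2 := ih h
      rw [show pre y (n + 1 + 1) = y (n + 1) :: pre y (n + 1) from rfl, List.getD_cons_succ]
      exact h2

/-- `σ` is a one-point extension of `τ` in the tree `P`. -/
def rel (P : List ℕ → Prop) (σ τ : List ℕ) : Prop := ∃ a, σ = a :: τ ∧ P σ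

theorem exists_branch {P : List ℕ → Prop} (h0 : P []) (h : ¬ Acc (rel P) []) :
    ∃ y : ℕ → ℕ, ∀ k, P (pre y k) := by
  have step : ∀ τ : {τ // ¬ Acc (rel P) τ}, ∃ a, P (a :: τ.1) ∧ ¬ Acc (rel P) (a :: τ.1) := by
    rintro ⟨τ, hτ⟩
    by_contra hc
    push Not at hc
    exact hτ (Acc.intro _ (by rintro _ ⟨a, rfl, hP⟩; exact hc a hP))
  choose a ha using step
  let s : ℕ → {τ // ¬ Acc (rel P) τ} :=
    fun n => Nat.rec ⟨[], h⟩ (fun _ t => ⟨a t :: t.1, (ha t).2⟩) n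
  let y : ℕ → ℕ := fun n => a (s n)
  have hy : ∀ n, pre y n = (s n).1 := by
    intro n
    induction n with
    | zero => rfl
    | succ n ih =>
      show y n :: pre y n = _
      rw [ih]
  refine ⟨y, fun k => ?_⟩
  cases k with
  | zero => exact h0
  | succ k =>
    rw [hy]
    exact (ha (s k)).1

theorem not_acc_of_branch {P : List ℕ → Prop} {y : ℕ → ℕ} (hy : ∀ k, P (pre y k)) :
    ¬ Acc (rel P) [] := by
  have key : ∀ τ, Acc (rel P) τ → ∀ k, τ = pre y k → False := by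
    intro τ hτ
    induction hτ with
    | intro τ _ ih =>
      intro k hk
      refine ih (pre y (k + 1)) ⟨y k, ?_, hy (k + 1)⟩ (k + 1) rfl
      rw [hk]; rfl
  intro h
  exact key [] h 0 rfl

theorem acc_iff {P : List ℕ → Prop} (h0 : P []) :
    Acc (rel P) [] ↔ ¬ ∃ y : ℕ → ℕ, ∀ k, P (pre y k) := by
  constructor
  · rintro h ⟨y, hy⟩
    exact not_acc_of_branch hy h
  · intro h
    by_contra hc
    exact h (exists_branch h0 hc)

/-- The tree `P` embeds into the part of the tree `Q` above `σ`. -/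
def Emb (P Q : List ℕ → Prop) (σ : List ℕ) : Prop :=
  ∃ f : List ℕ → List ℕ, f [] = σ ∧ (∀ τ, P τ → Q (f τ)) ∧
    ∀ a τ, P (a :: τ) → ∃ b, f (a :: τ) = b :: f τ

/-- The rank of a node. -/
noncomputable def rk (P : List ℕ → Prop) (τ : List ℕ) : Ordinal.{0} := by
  classical
  exact if h : Acc (rel P) τ then h.rank else 0

theorem rk_eq {P : List ℕ → Prop} {τ : List ℕ} (h : Acc (rel P) τ) : rk P τ = h.rank := by
  unfold rk
  rw [dif_pos h]

theorem rk_lt {P : List ℕ → Prop} {τ : List ℕ} (h : Acc (rel P) τ) {a : ℕ} (ha : P (a :: τ)) :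
    rk P (a :: τ) < rk P τ := by
  have h1 : rel P (a :: τ) τ := ⟨a, rfl, ha⟩
  rw [rk_eq h, rk_eq (h.inv h1)]
  exact h.rank_lt_of_rel h1

/-- An ordinal below the rank of a node is at most the rank of some child. -/
theorem exists_child {P : List ℕ → Prop} {τ : List ℕ} (h : Acc (rel P) τ) {o : Ordinal.{0}}
    (ho : o < rk P τ) : ∃ a, P (a :: τ) ∧ o ≤ rk P (a :: τ) := by
  by_contra hc
  push Not at hc
  have : h.rank ≤ o := by
    rw [h.rank_eq]
    refine Ordinal.iSup_le ?_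
    rintro ⟨_, a, rfl, hP⟩
    have h1 := hc a hP
    rw [rk_eq (h.inv ⟨a, rfl, hP⟩)] at h1
    exact Order.succ_le_of_lt h1
  rw [rk_eq h] at ho
  exact absurd ho (not_lt.2 this)

theorem Emb.acc {P Q : List ℕ → Prop} {σ : List ℕ} (h : Emb P Q σ) (h0 : P [])
    (hQ : Acc (rel Q) σ) : Acc (rel P) [] := by
  obtain ⟨f, hf0, hfQ, hfc⟩ := h
  have key : ∀ ρ, Acc (rel Q) ρ → ∀ τ, P τ → f τ = ρ → Acc (rel P) τ := by
    intro ρ hρ
    induction hρ with
    | intro ρ _ ih =>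
      intro τ hτ hfτ
      refine Acc.intro _ ?_
      rintro _ ⟨a, rfl, hP⟩
      obtain ⟨b, hb⟩ := hfc a τ hP
      refine ih (b :: ρ) ⟨b, rfl, ?_⟩ (a :: τ) hP ?_
      · rw [← hfτ, ← hb]; exact hfQ _ hP
      · rw [hb, hfτ]
  exact key σ hQ [] h0 hf0

theorem Emb.rk_le {P Q : List ℕ → Prop} {σ : List ℕ} (h : Emb P Q σ) (h0 : P [])
    (hQ : Acc (rel Q) σ) : rk P [] ≤ rk Q σ := by
  obtain ⟨f, hf0, hfQ, hfc⟩ := h
  have key : ∀ ρ, Acc (rel Q) ρ → ∀ τ, P τ → f τ = ρ → Acc (rel P) τ ∧ rk P τ ≤ rk Q ρ := by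
    intro ρ hρ
    induction hρ with
    | intro ρ hρ' ih =>
      intro τ hτ hfτ
      have hacc : Acc (rel Q) ρ := Acc.intro _ hρ'
      have hch : ∀ a, P (a :: τ) → Acc (rel P) (a :: τ) ∧ rk P (a :: τ) < rk Q ρ := by
        intro a hP
        obtain ⟨b, hb⟩ := hfc a τ hP
        have hQb : Q (b :: ρ) := by
          rw [← hfτ, ← hb]; exact hfQ _ hP
        have h1 := ih (b :: ρ) ⟨b, rfl, hQb⟩ (a :: τ) hP (by rw [hb, hfτ])
        exact ⟨h1.1, h1.2.trans_lt (rk_lt hacc hQb)⟩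
      have hτa : Acc (rel P) τ := Acc.intro _ (by rintro _ ⟨a, rfl, hP⟩; exact (hch a hP).1)
      refine ⟨hτa, ?_⟩
      by_contra hc
      rw [not_le] at hc
      obtain ⟨a, ha, hle⟩ := exists_child hτa hc
      exact absurd (hle.trans_lt (hch a ha).2) (lt_irrefl _)
  exact (key σ hQ [] h0 hf0).2

theorem acc_of_mem {P : List ℕ → Prop} (hP : ∀ a τ, P (a :: τ) → P τ) (h : Acc (rel P) []) :
    ∀ τ, P τ → Acc (rel P) τ := by
  intro τ
  induction τ with
  | nil => exact fun _ => h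
  | cons a τ ih => exact fun h1 => (ih (hP a τ h1)).inv ⟨a, rfl, h1⟩

theorem emb_of_rk_le {P Q : List ℕ → Prop} (hP : ∀ a τ, P (a :: τ) → P τ)
    (hPa : Acc (rel P) []) {σ : List ℕ} (hQ : Q σ) (hQa : Acc (rel Q) σ)
    (hle : rk P [] ≤ rk Q σ) : Emb P Q σ := by
  classical
  let B : ℕ → List ℕ → List ℕ → ℕ := fun a τ ρ =>
    if h : ∃ b, Q (b :: ρ) ∧ rk P (a :: τ) ≤ rk Q (b :: ρ) then h.choose else 0
  let f : List ℕ → List ℕ := fun τ => List.rec σ (fun a τ ρ => B a τ ρ :: ρ) τ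
  have hf : ∀ a τ, f (a :: τ) = B a τ (f τ) :: f τ := fun _ _ => rfl
  have key : ∀ τ, P τ → Q (f τ) ∧ Acc (rel Q) (f τ) ∧ rk P τ ≤ rk Q (f τ) := by
    intro τ
    induction τ with
    | nil => exact fun _ => ⟨hQ, hQa, hle⟩
    | cons a τ ih =>
      intro h1
      obtain ⟨h2, h3, h4⟩ := ih (hP a τ h1)
      have h5 : rk P (a :: τ) < rk Q (f τ) :=
        (rk_lt (acc_of_mem hP hPa τ (hP a τ h1)) h1).trans_le h4
      have h6 : ∃ b, Q (b :: f τ) ∧ rk P (a :: τ) ≤ rk Q (b :: f τ) := exists_child h3 h5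
      have h7 : B a τ (f τ) = h6.choose := dif_pos h6
      rw [hf, h7]
      exact ⟨h6.choose_spec.1, h3.inv ⟨_, rfl, h6.choose_spec.1⟩, h6.choose_spec.2⟩
  exact ⟨f, rfl, fun τ hτ => (key τ hτ).1, fun a τ _ => ⟨_, hf a τ⟩⟩

/-- The uniformising condition: among the well-founded trees `P n`, the tree `P n` has the least
rank, and `n` is the first index with this rank. -/
def Star (P : ℕ → List ℕ → Prop) (n : ℕ) : Prop :=
  Acc (rel (P n)) [] ∧ (∀ m, m < n → ¬ Emb (P m) (P n) []) ∧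
    ∀ m, n < m → ∀ b, ¬ Emb (P m) (P n) [b]

variable {P : ℕ → List ℕ → Prop}

theorem exists_star (h0 : ∀ n, P n []) (hex : ∃ n, Acc (rel (P n)) []) : ∃ n, Star P n := by
  classical
  let S : Set Ordinal.{0} := {o | ∃ n, Acc (rel (P n)) [] ∧ rk (P n) [] = o}
  have hS : S.Nonempty := by
    obtain ⟨n, hn⟩ := hex
    exact ⟨_, n, hn, rfl⟩
  have hmin := csInf_mem hS
  set n₀ := Nat.find hmin with hn₀
  have hspec := Nat.find_spec hmin
  refine ⟨n₀, hspec.1, ?_, ?_⟩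
  · intro m hm hE
    have h1 := hE.acc (h0 m) hspec.1
    have h2 := hE.rk_le (h0 m) hspec.1
    have h3 : sInf S ≤ rk (P m) [] := csInf_le' ⟨m, h1, rfl⟩
    refine Nat.find_min hmin hm ⟨h1, le_antisymm ?_ h3⟩
    rw [← hspec.2]; exact h2
  · intro m _ b hE
    have hb : P n₀ [b] := by
      obtain ⟨f, hf0, hfQ, _⟩ := hE
      have := hfQ [] (h0 m)
      rwa [hf0] at this
    have hacc : Acc (rel (P n₀)) [b] := hspec.1.inv ⟨b, rfl, hb⟩
    have h1 := hE.acc (h0 m) hacc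
    have h2 := hE.rk_le (h0 m) hacc
    have h3 : sInf S ≤ rk (P m) [] := csInf_le' ⟨m, h1, rfl⟩
    have h4 := rk_lt hspec.1 hb
    rw [hspec.2] at h4
    exact absurd (h2.trans_lt h4) (not_lt.2 h3)

theorem star_unique (h0 : ∀ n, P n []) (hP : ∀ n a τ, P n (a :: τ) → P n τ) {n m : ℕ}
    (hn : Star P n) (hm : Star P m) : n = m := by
  have key : ∀ n m, Star P n → Star P m → ¬ n < m := by
    intro n m hn hm hlt
    rcases le_or_gt (rk (P n) []) (rk (P m) []) with h | h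
    · exact hm.2.1 n hlt (emb_of_rk_le (hP n) hn.1 (h0 m) hm.1 h)
    · obtain ⟨b, hb, hle⟩ := exists_child hn.1 h
      exact hn.2.2 m hlt b (emb_of_rk_le (hP m) hm.1 hb (hn.1.inv ⟨b, rfl, hb⟩) hle)
  rcases lt_trichotomy n m with h | h | h
  · exact absurd h (key n m hn hm)
  · exact h
  · exact absurd h (key m n hm hn)

end Pool.Agent.T6.H38.CoA
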